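import Mathlib
import Pool.Agent.H425R3.MM.K3

/-!
# Large values of exponential sums at well-spaced real points
-/

open Finset
open Pool.Agent.H469R2.NK
open Pool.Agent.H425R3.MM

namespace Pool.Agent.Y938.Sep

/-- the duality principle for real points -/
lemma dual_real (S : Finset ℝ) (T : Finset ℕ) (b : ℕ → ℂ) (θ : ℕ → ℝ) {v A K : ℝ} (hv0 : 0 ≤ v) (hK0 : 0 ≤ K)
    (hv : ∀ t ∈ S, v ≤ ‖∑ m ∈ T, b m * e (t * θ m)‖) (hA : ∑ m ∈ T, ‖b m‖^2 ≤ A)
    (hK : ∀ t ∈ S, ∑ t' ∈ S, ‖∑ m ∈ T, e ((t - t') * θ m)‖ ≤ K) :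
    (S.card : ℝ) * v^2 ≤ A * K := by
  have hA0 : 0 ≤ A := le_trans (sum_nonneg (fun _ _ => by positivity)) hA
  rcases S.eq_empty_or_nonempty with rfl | hS
  · simp only [card_empty, Nat.cast_zero, zero_mul]; positivity
  have hS0 : (0:ℝ) < S.card := by exact_mod_cast hS.card_pos
  set B : ℝ → ℂ := fun t => ∑ m ∈ T, b m * e (t * θ m) with hB
  set ε : ℝ → ℂ := fun t => if B t = 0 then 0 else (starRingEnd ℂ) (B t) / ‖B t‖ with hε
  have hε1 : ∀ n, ‖ε n‖ ≤ 1 := by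
    intro n
    simp only [hε]
    split_ifs with h
    · simp
    · rw [norm_div, Complex.norm_conj, Complex.norm_real, Real.norm_eq_abs, abs_norm]
      have : ‖B n‖ ≠ 0 := by rwa [norm_ne_zero_iff]
      rw [div_self this]
  have hεB : ∀ n, ε n * B n = ((‖B n‖ : ℝ) : ℂ) := by
    intro n
    simp only [hε]
    split_ifs with h
    · rw [h]; simp
    · have h1 : ((‖B n‖ : ℝ) : ℂ) ≠ 0 := by
        rw [Complex.ofReal_ne_zero]; rwa [norm_ne_zero_iff]
      rw [div_mul_eq_mul_div, div_eq_iff h1, mul_comm, Complex.mul_conj']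
      ring
  set G : ℕ → ℂ := fun m => ∑ n ∈ S, ε n * e (n * θ m) with hG
  have h1 : (∑ n ∈ S, ‖B n‖) = ‖∑ m ∈ T, b m * G m‖ := by
    have e1 : ∑ m ∈ T, b m * G m = ((∑ n ∈ S, ‖B n‖ : ℝ) : ℂ) := by
      simp only [hG]
      rw [Complex.ofReal_sum]
      calc ∑ m ∈ T, b m * ∑ n ∈ S, ε n * e (n * θ m) = ∑ m ∈ T, ∑ n ∈ S, ε n * (b m * e (n * θ m)) := by
            apply sum_congr rfl; intro m _; rw [mul_sum]; apply sum_congr rfl; intro n _; ring
        _ = ∑ n ∈ S, ε n * B n := by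
            rw [sum_comm]; apply sum_congr rfl; intro n _; simp only [hB]; rw [mul_sum]
        _ = _ := sum_congr rfl (fun n _ => hεB n)
    rw [e1, Complex.norm_real, Real.norm_of_nonneg (by positivity)]
  have h2 : (S.card : ℝ) * v ≤ ∑ n ∈ S, ‖B n‖ := by
    rw [← nsmul_eq_mul]
    exact card_nsmul_le_sum _ _ _ hv
  have h3 : ‖∑ m ∈ T, b m * G m‖^2 ≤ A * ∑ m ∈ T, ‖G m‖^2 := by
    have g1 : ‖∑ m ∈ T, b m * G m‖ ≤ ∑ m ∈ T, ‖b m‖ * ‖G m‖ := by
      refine (norm_sum_le _ _).trans (le_of_eq ?_)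
      apply sum_congr rfl; intro m _; rw [norm_mul]
    calc ‖∑ m ∈ T, b m * G m‖^2 ≤ (∑ m ∈ T, ‖b m‖ * ‖G m‖)^2 := pow_le_pow_left₀ (norm_nonneg _) g1 2
      _ ≤ (∑ m ∈ T, ‖b m‖^2) * ∑ m ∈ T, ‖G m‖^2 := sum_mul_sq_le_sq_mul_sq _ _ _
      _ ≤ _ := mul_le_mul_of_nonneg_right hA (sum_nonneg (fun _ _ => by positivity))
  have h4 : ∑ m ∈ T, ‖G m‖^2 ≤ S.card * K := by
    have g1 : ((∑ m ∈ T, ‖G m‖^2 : ℝ) : ℂ) = ∑ n ∈ S, ∑ n' ∈ S, ε n * (starRingEnd ℂ) (ε n') *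
        ∑ m ∈ T, e ((n - n') * θ m) := by
      push_cast
      have g2 : ∀ m ∈ T, ((‖G m‖:ℂ))^2 = ∑ n ∈ S, ∑ n' ∈ S, ε n * (starRingEnd ℂ) (ε n') * e ((n - n') * θ m) := by
        intro m _
        rw [← Complex.mul_conj']
        simp only [hG]
        rw [map_sum, sum_mul_sum]
        apply sum_congr rfl; intro n _
        apply sum_congr rfl; intro n' _
        rw [map_mul, conj_e]
        have : e ((n - n') * θ m) = e (n * θ m) * e (-(n' * θ m)) := by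
          rw [← e_add]; congr 1; ring
        rw [this]; ring
      rw [sum_congr rfl g2, sum_comm]
      apply sum_congr rfl; intro n _
      rw [sum_comm]
      apply sum_congr rfl; intro n' _
      rw [mul_sum]
    have g3 : (∑ m ∈ T, ‖G m‖^2 : ℝ) = ‖((∑ m ∈ T, ‖G m‖^2 : ℝ) : ℂ)‖ := by
      rw [Complex.norm_real, Real.norm_of_nonneg (sum_nonneg (fun _ _ => by positivity))]
    rw [g3, g1]
    calc ‖∑ n ∈ S, ∑ n' ∈ S, ε n * (starRingEnd ℂ) (ε n') * ∑ m ∈ T, e ((n - n') * θ m)‖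
        ≤ ∑ n ∈ S, ∑ n' ∈ S, ‖∑ m ∈ T, e ((n - n') * θ m)‖ := by
          refine (norm_sum_le _ _).trans (sum_le_sum fun n _ => ?_)
          refine (norm_sum_le _ _).trans (sum_le_sum fun n' _ => ?_)
          rw [norm_mul, norm_mul, Complex.norm_conj]
          calc ‖ε n‖ * ‖ε n'‖ * ‖∑ m ∈ T, e ((n - n') * θ m)‖ ≤ 1 * 1 * ‖∑ m ∈ T, e ((n - n') * θ m)‖ := by
                gcongr
                · exact hε1 n
                · exact hε1 n'
            _ = _ := by ring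
      _ ≤ ∑ n ∈ S, K := sum_le_sum hK
      _ = _ := by rw [sum_const, nsmul_eq_mul]
  have h5 : ((S.card : ℝ) * v)^2 ≤ A * (S.card * K) := by
    calc ((S.card : ℝ) * v)^2 ≤ (∑ n ∈ S, ‖B n‖)^2 := pow_le_pow_left₀ (by positivity) h2 2
      _ ≤ A * ∑ m ∈ T, ‖G m‖^2 := by rw [h1]; exact h3
      _ ≤ _ := mul_le_mul_of_nonneg_left h4 hA0
  have h6 : (S.card : ℝ) * (S.card * v^2) ≤ S.card * (A * K) := by
    calc (S.card : ℝ) * (S.card * v^2) = ((S.card : ℝ) * v)^2 := by ring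
      _ ≤ _ := h5
      _ = _ := by ring
  exact le_of_mul_le_mul_left h6 hS0

/-- separated sets -/
def Sepd (η : ℝ) (S : Finset ℝ) : Prop := ∀ t ∈ S, ∀ t' ∈ S, t ≠ t' → η ≤ |t - t'|

lemma Sepd.mono {η : ℝ} {S T : Finset ℝ} (h : Sepd η S) (hT : T ⊆ S) : Sepd η T :=
  fun t ht t' ht' hne => h t (hT ht) t' (hT ht') hne

/-- reciprocals of distances to one side -/
lemma sum_one_side {η s : ℝ} (hη : 0 < η) (hs : 0 ≤ s) (S : Finset ℝ) (f : ℝ → ℝ) (hf : ∀ t ∈ S, η ≤ f t ∧ f t ≤ s)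
    (hinj : ∀ t ∈ S, ∀ t' ∈ S, t ≠ t' → η ≤ |f t - f t'|) :
    ∑ t ∈ S, 1 / f t ≤ 1 / η * (1 + Real.log (s / η + 1)) := by
  set k : ℝ → ℕ := fun t => ⌊f t / η⌋₊ with hk
  have hk1 : ∀ t ∈ S, 1 ≤ k t := by
    intro t ht
    simp only [hk]
    rw [Nat.one_le_floor_iff, le_div_iff₀ hη, one_mul]
    exact (hf t ht).1
  have hkle : ∀ t ∈ S, η * (k t : ℝ) ≤ f t := by
    intro t ht
    have h1 : (k t : ℝ) ≤ f t / η := Nat.floor_le (div_nonneg (hη.le.trans (hf t ht).1) hη.le)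
    rw [le_div_iff₀ hη] at h1
    linarith
  have hkinj : Set.InjOn k S := by
    intro t ht t' ht' hkk
    by_contra hne
    have h1 := hinj t ht t' ht' hne
    have a1 := hkle t ht
    have a2 := hkle t' ht'
    have a3 := Nat.lt_floor_add_one (f t / η)
    have a4 := Nat.lt_floor_add_one (f t' / η)
    rw [div_lt_iff₀ hη] at a3 a4
    simp only [hk] at hkk a1 a2
    rw [hkk] at a3 a1
    have : |f t - f t'| < η := by
      rw [abs_lt]; constructor <;> nlinarith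
    linarith
  have h1 : ∑ t ∈ S, 1 / f t ≤ ∑ t ∈ S, 1 / η * (1 / (k t : ℝ)) := by
    apply sum_le_sum
    intro t ht
    have hk0 : (0:ℝ) < k t := by exact_mod_cast hk1 t ht
    rw [one_div_mul_one_div]
    apply one_div_le_one_div_of_le (by positivity) (hkle t ht)
  refine h1.trans ?_
  rw [← mul_sum]
  apply mul_le_mul_of_nonneg_left _ (by positivity)
  have h2 : ∑ t ∈ S, 1 / (k t : ℝ) = ∑ n ∈ S.image k, 1 / (n:ℝ) :=
    (sum_image (f := fun n : ℕ => 1 / (n:ℝ)) hkinj).symm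
  rw [h2]
  set K : ℕ := ⌊s / η⌋₊ + 1 with hK
  have h3 : S.image k ⊆ Ico 1 K := by
    intro n hn
    rw [mem_image] at hn
    obtain ⟨t, ht, rfl⟩ := hn
    rw [mem_Ico]
    refine ⟨hk1 t ht, ?_⟩
    rw [hK, Nat.lt_succ_iff]
    apply Nat.floor_le_floor
    gcongr
    exact (hf t ht).2
  refine (sum_le_sum_of_subset_of_nonneg h3 (fun _ _ _ => by positivity)).trans ?_
  refine (harm_le K).trans ?_
  have h4 : ((K:ℕ):ℝ) ≤ s / η + 1 := by
    rw [hK]; push_cast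
    have := Nat.floor_le (div_nonneg hs hη.le)
    linarith
  have hKpos : (0:ℝ) < K := by rw [hK]; positivity
  have := Real.log_le_log hKpos h4
  linarith

/-- reciprocals of distances in a separated set -/
lemma sum_near {η s : ℝ} (hη : 0 < η) (hs : 0 ≤ s) (S : Finset ℝ) (hS : Sepd η S) {t : ℝ} (ht : t ∈ S) :
    ∑ t' ∈ (S.erase t).filter (fun t' => |t - t'| ≤ s), 1 / |t - t'| ≤ 2 / η * (1 + Real.log (s / η + 1)) := by
  set U := (S.erase t).filter (fun t' => |t - t'| ≤ s) with hU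
  have hmem : ∀ t' ∈ U, t' ∈ S ∧ t' ≠ t ∧ |t - t'| ≤ s := by
    intro t' ht'
    rw [hU, mem_filter, mem_erase] at ht'
    exact ⟨ht'.1.2, ht'.1.1, ht'.2⟩
  rw [← sum_filter_add_sum_filter_not U (fun t' => t < t')]
  have h1 : ∑ t' ∈ U.filter (fun t' => t < t'), 1 / |t - t'| ≤ 1 / η * (1 + Real.log (s / η + 1)) := by
    have e1 : ∑ t' ∈ U.filter (fun t' => t < t'), 1 / |t - t'| = ∑ t' ∈ U.filter (fun t' => t < t'), 1 / (t' - t) := by
      apply sum_congr rfl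
      intro t' ht'
      rw [mem_filter] at ht'
      rw [abs_sub_comm, abs_of_pos (by linarith [ht'.2])]
    rw [e1]
    apply sum_one_side hη hs _ (fun t' => t' - t)
    · intro t' ht'
      rw [mem_filter] at ht'
      obtain ⟨a1, a2, a3⟩ := hmem t' ht'.1
      have a4 := hS t ht t' a1 (Ne.symm a2)
      rw [abs_sub_comm, abs_of_pos (by linarith [ht'.2])] at a3 a4
      exact ⟨a4, a3⟩
    · intro t' ht' t'' ht'' hne
      rw [mem_filter] at ht' ht''
      have := hS t' (hmem t' ht'.1).1 t'' (hmem t'' ht''.1).1 hne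
      rwa [show t' - t - (t'' - t) = t' - t'' by ring]
  have h2 : ∑ t' ∈ U.filter (fun t' => ¬ t < t'), 1 / |t - t'| ≤ 1 / η * (1 + Real.log (s / η + 1)) := by
    have e1 : ∑ t' ∈ U.filter (fun t' => ¬ t < t'), 1 / |t - t'| = ∑ t' ∈ U.filter (fun t' => ¬ t < t'), 1 / (t - t') := by
      apply sum_congr rfl
      intro t' ht'
      rw [mem_filter] at ht'
      rw [abs_of_nonneg (by linarith [not_lt.mp ht'.2])]
    rw [e1]
    apply sum_one_side hη hs _ (fun t' => t - t')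
    · intro t' ht'
      rw [mem_filter] at ht'
      obtain ⟨a1, a2, a3⟩ := hmem t' ht'.1
      have a4 := hS t ht t' a1 (Ne.symm a2)
      rw [abs_of_nonneg (by linarith [not_lt.mp ht'.2])] at a3 a4
      exact ⟨a4, a3⟩
    · intro t' ht' t'' ht'' hne
      rw [mem_filter] at ht' ht''
      have := hS t' (hmem t' ht'.1).1 t'' (hmem t'' ht''.1).1 hne
      rwa [show t - t' - (t - t'') = -(t' - t'') by ring, abs_neg]
  calc _ ≤ 1 / η * (1 + Real.log (s / η + 1)) + 1 / η * (1 + Real.log (s / η + 1)) := add_le_add h1 h2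
    _ = _ := by ring

/-- the sum of the kernel over a separated set in a window -/
lemma ker_sep {η : ℝ} (hη : 0 < η) (j : ℕ) (S : Finset ℝ) (hS : Sepd η S) {H : ℝ}
    (hH : ∀ t ∈ S, ∀ t' ∈ S, |t - t'| ≤ H) {t : ℝ} (ht : t ∈ S) :
    ∑ t' ∈ S, ‖∑ m ∈ blk j, e ((t - t') * √(m:ℝ))‖ ≤
      3 * (4:ℝ)^j + 32 * (2:ℝ)^j / η * (1 + Real.log (2 * (2:ℝ)^j / η + 1)) +
      S.card * (23 * √(H * √((4^j + 1 : ℕ) : ℝ) * (1 + Real.log ((4^j + 1 : ℕ) : ℝ)))) := by
  set M : ℕ := 4^j + 1 with hM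
  have hM1 : 1 ≤ M := by rw [hM]; exact Nat.le_add_left _ _
  have hM1' : (1:ℝ) ≤ M := by exact_mod_cast hM1
  have h2j : (1:ℝ) ≤ (2:ℝ)^j := one_le_pow₀ (by norm_num)
  have hMr : (M:ℝ) = 4^j + 1 := by rw [hM]; push_cast; ring
  have hlog : 0 ≤ Real.log M := Real.log_nonneg hM1'
  set s := √(M:ℝ) with hs
  have hs1 : 1 ≤ s := by rw [hs, Real.one_le_sqrt]; exact hM1'
  have hs2 : s ≤ 2 * (2:ℝ)^j := by
    rw [hs, Real.sqrt_le_left (by positivity), hMr, four_eq]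
    nlinarith
  have hH0 : 0 ≤ H := (abs_nonneg _).trans (hH t ht t ht)
  have hker : ∀ h : ℝ, 0 < h → ‖∑ m ∈ blk j, e (h * √(m:ℝ))‖ ≤
      (if h ≤ s then 8 * s / h else 0) + 23 * √(h * s * (1 + Real.log M)) := by
    intro h hh
    rw [blk_sum]
    exact ker hh hM1 (3 * 4^j) (by omega)
  set W := 23 * √(H * s * (1 + Real.log M)) with hW
  have hW0 : 0 ≤ W := by positivity
  have hterm : ∀ t' ∈ S.erase t, ‖∑ m ∈ blk j, e ((t - t') * √(m:ℝ))‖ ≤
      (if |t - t'| ≤ s then 8 * s * (1 / |t - t'|) else 0) + W := by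
    intro t' ht'
    rw [mem_erase] at ht'
    set h := |t - t'| with hh
    have hd1 : η ≤ h := hS t ht t' ht'.2 (Ne.symm ht'.1)
    have hh0 : 0 < h := by linarith
    have hd2 : h ≤ H := hH t ht t' ht'.2
    have e1 : ‖∑ m ∈ blk j, e ((t - t') * √(m:ℝ))‖ = ‖∑ m ∈ blk j, e (h * √(m:ℝ))‖ := by
      rcases abs_cases (t - t') with ⟨h5, _⟩ | ⟨h5, _⟩
      · rw [hh, h5]
      · rw [← blk_neg h j]
        congr 1
        apply sum_congr rfl; intro m _
        congr 1; rw [hh, h5]; ring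
    rw [e1]
    refine (hker h hh0).trans (add_le_add ?_ ?_)
    · split_ifs with h5
      · apply le_of_eq; ring
      · exact le_rfl
    · rw [hW]
      apply mul_le_mul_of_nonneg_left _ (by norm_num)
      apply Real.sqrt_le_sqrt
      gcongr
  -- the diagonal
  have hdiag : ‖∑ m ∈ blk j, e ((t - t) * √(m:ℝ))‖ ≤ 3 * (4:ℝ)^j := by
    refine (norm_sum_le _ _).trans ?_
    simp only [norm_e, sum_const, blk, Nat.card_Ioc, nsmul_eq_mul, mul_one]
    have : 4^(j+1) - 4^j = 3 * 4^j := by rw [pow_succ]; omega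
    rw [this]; push_cast; exact le_rfl
  rw [← add_sum_erase _ _ ht]
  have hE : ((S.erase t).card : ℝ) ≤ S.card := by exact_mod_cast card_erase_le
  have hlog2 : 1 + Real.log (s / η + 1) ≤ 1 + Real.log (2 * (2:ℝ)^j / η + 1) := by
    have h1 : 0 < s / η + 1 := by positivity
    have h2 : s / η + 1 ≤ 2 * (2:ℝ)^j / η + 1 := by gcongr
    have := Real.log_le_log h1 h2
    linarith
  have hlog3 : 0 ≤ 1 + Real.log (s / η + 1) := by
    have h1 : 1 ≤ s / η + 1 := by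
      have : 0 ≤ s / η := by positivity
      linarith
    have := Real.log_nonneg h1
    linarith
  have hrest : ∑ t' ∈ S.erase t, ‖∑ m ∈ blk j, e ((t - t') * √(m:ℝ))‖ ≤
      32 * (2:ℝ)^j / η * (1 + Real.log (2 * (2:ℝ)^j / η + 1)) + S.card * W := by
    calc _ ≤ ∑ t' ∈ S.erase t, ((if |t - t'| ≤ s then 8 * s * (1 / |t - t'|) else 0) + W) := sum_le_sum hterm
      _ = 8 * s * ∑ t' ∈ (S.erase t).filter (fun t' => |t - t'| ≤ s), 1 / |t - t'| + (S.erase t).card * W := by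
          rw [sum_add_distrib, ← sum_filter, sum_const, nsmul_eq_mul, mul_sum]
      _ ≤ 8 * s * (2 / η * (1 + Real.log (s / η + 1))) + S.card * W := by
          apply add_le_add
          · exact mul_le_mul_of_nonneg_left (sum_near hη (by linarith) S hS ht) (by positivity)
          · exact mul_le_mul_of_nonneg_right hE hW0
      _ ≤ _ := by
          apply add_le_add _ le_rfl
          calc 8 * s * (2 / η * (1 + Real.log (s / η + 1))) ≤
                8 * (2 * (2:ℝ)^j) * (2 / η * (1 + Real.log (2 * (2:ℝ)^j / η + 1))) := by gcongr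
            _ = _ := by ring
  calc _ ≤ 3 * (4:ℝ)^j + (32 * (2:ℝ)^j / η * (1 + Real.log (2 * (2:ℝ)^j / η + 1)) + S.card * W) := add_le_add hdiag hrest
    _ = _ := by ring

end Pool.Agent.Y938.Sep
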