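import Mathlib
import Pool.Agent.Y938.Sep.A

/-!
# Large values of one block at well-spaced real points
-/

open Finset
open Pool.Agent.H469R2.NK
open Pool.Agent.H425R3.MM

namespace Pool.Agent.Y938.Sep

/-- the block sum at a real point -/
noncomputable def Bt (b : ℕ → ℂ) (j : ℕ) (t : ℝ) : ℂ := ∑ m ∈ blk j, b m * e (t * √(m:ℝ))

/-- large values of a block -/
theorem blv {κ C1 : ℝ} (hκ : 0 < κ) (hC1 : 0 < C1) : ∃ C : ℝ, 0 < C ∧
    ∀ (j : ℕ) (T : Finset ℝ) (X H η v g : ℝ) (b : ℕ → ℂ), 0 < η → 0 ≤ H → 0 < v → 0 ≤ g → g ≤ 1 →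
    Sepd η T → (∀ t ∈ T, X ≤ t ∧ t ≤ X + H) →
    (∀ m ∈ blk j, ‖b m‖ ≤ C1 * g * ((2:ℝ)^j) ^ (-(3/2) + κ)) → (∀ t ∈ T, v ≤ ‖Bt b j t‖) →
    (T.card : ℝ) ≤ C * ((1 + Real.log (2 * (2:ℝ)^j / η + 1)) * (1 + 1 / (η * v^2)) * ((2:ℝ)^j) ^ (9 * κ)) *
      (H / v^6 + g^2 * (2:ℝ)^j / v^2) := by
  set c2 : ℝ := 23 * √(2 * (2 + 2/κ)) with hc2
  have hc20 : 0 ≤ c2 := by positivity
  set D : ℝ := 3 * C1^2 * c2 + 1 with hD
  have hD0 : 0 < D := by positivity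
  set C3 : ℝ := 3 + 288 * C1^2 with hC3
  set C4 : ℝ := 6 * C1^2 * C3 with hC4
  refine ⟨C4 * (4 * D^2 + 1), by positivity, ?_⟩
  intro j T X H η v g b hη hH0 hv hg0 hg1 hsep hT hb hvT
  set Q : ℝ := (2:ℝ)^j with hQ
  have hQ1 : 1 ≤ Q := one_le_pow₀ (by norm_num)
  have hQ0 : 0 < Q := by linarith
  have h4Q : (4:ℝ)^j = Q^2 := four_eq j
  set L : ℝ := 1 + Real.log (2 * Q / η + 1) with hL
  have hL1 : 1 ≤ L := by
    have h1 : 1 ≤ 2 * Q / η + 1 := by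
      have : 0 ≤ 2 * Q / η := by positivity
      linarith
    have := Real.log_nonneg h1
    linarith
  set Ψ : ℝ := 1 + 1 / (η * v^2) with hΨ
  have hΨ1 : 1 ≤ Ψ := by
    have : 0 ≤ 1 / (η * v^2) := by positivity
    linarith
  rcases T.eq_empty_or_nonempty with rfl | ⟨t0, ht0⟩
  · rw [card_empty, Nat.cast_zero]
    positivity
  have hg2 : g^2 ≤ 1 := by nlinarith
  -- the l² norm
  have hl2 : ∑ m ∈ blk j, ‖b m‖^2 ≤ 3 * C1^2 * g^2 * Q ^ (-1 + 2 * κ) := by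
    calc ∑ m ∈ blk j, ‖b m‖^2 ≤ ∑ m ∈ blk j, (C1 * g * Q ^ (-(3/2) + κ))^2 :=
          sum_le_sum (fun m hm => pow_le_pow_left₀ (norm_nonneg _) (hb m hm) 2)
      _ = 3 * Q^2 * (C1 * g * Q ^ (-(3/2) + κ))^2 := by rw [sum_const, nsmul_eq_mul, blk_card, h4Q]
      _ = 3 * C1^2 * g^2 * (Q^2 * (Q ^ (-(3/2) + κ))^2) := by ring
      _ = _ := by
          congr 1
          rw [← Real.rpow_natCast Q 2, ← Real.rpow_natCast (Q ^ (-(3/2) + κ)) 2, ← Real.rpow_mul hQ0.le, ← Real.rpow_add hQ0]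
          congr 1; push_cast; ring
  -- the trivial bound
  have htriv : v^2 ≤ 9 * C1^2 * Q ^ (1 + 2 * κ) := by
    have h1 : v ≤ 3 * C1 * Q ^ (1/2 + κ) := by
      refine (hvT t0 ht0).trans ?_
      unfold Bt
      calc ‖∑ m ∈ blk j, b m * e (t0 * √(m:ℝ))‖ ≤ ∑ m ∈ blk j, ‖b m * e (t0 * √(m:ℝ))‖ := norm_sum_le _ _
        _ ≤ ∑ m ∈ blk j, C1 * 1 * Q ^ (-(3/2) + κ) := by
            apply sum_le_sum
            intro m hm
            rw [norm_mul, norm_e, mul_one]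
            refine (hb m hm).trans ?_
            gcongr
        _ = 3 * C1 * (Q^2 * Q ^ (-(3/2) + κ)) := by rw [sum_const, nsmul_eq_mul, blk_card, h4Q]; ring
        _ = _ := by
            rw [← Real.rpow_natCast Q 2, ← Real.rpow_add hQ0]
            congr 2; push_cast; ring
    calc v^2 ≤ (3 * C1 * Q ^ (1/2 + κ))^2 := pow_le_pow_left₀ hv.le h1 2
      _ = 9 * C1^2 * (Q ^ (1/2 + κ))^2 := by ring
      _ = _ := by
          rw [← Real.rpow_natCast (Q ^ (1/2 + κ)) 2, ← Real.rpow_mul hQ0.le]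
          congr 2; push_cast; ring
  have hdiag : 3 * Q + 32 * L / η ≤ C3 * Q ^ (1 + 2 * κ) * L * Ψ := by
    have e1 : Q ≤ Q ^ (1 + 2 * κ) := by
      calc Q = Q ^ (1:ℝ) := (Real.rpow_one _).symm
        _ ≤ _ := Real.rpow_le_rpow_of_exponent_le hQ1 (by linarith)
    have e2 : 32 * L / η ≤ 288 * C1^2 * Q ^ (1 + 2 * κ) * L * (1 / (η * v^2)) := by
      have h1 : 32 * L / η = 32 * L * (1 / (η * v^2)) * v^2 := by field_simp
      rw [h1]
      calc 32 * L * (1 / (η * v^2)) * v^2 ≤ 32 * L * (1 / (η * v^2)) * (9 * C1^2 * Q ^ (1 + 2 * κ)) := by gcongr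
        _ = _ := by ring
    have e3 : 0 < Q ^ (1 + 2 * κ) := by positivity
    have e4 : 3 * Q ≤ 3 * Q ^ (1 + 2 * κ) * L * Ψ := by
      calc 3 * Q ≤ 3 * Q ^ (1 + 2 * κ) * 1 * 1 := by linarith
        _ ≤ _ := by gcongr
    have e5 : 288 * C1^2 * Q ^ (1 + 2 * κ) * L * (1 / (η * v^2)) ≤ 288 * C1^2 * Q ^ (1 + 2 * κ) * L * Ψ := by
      gcongr
      rw [hΨ]; linarith
    calc 3 * Q + 32 * L / η ≤ 3 * Q ^ (1 + 2 * κ) * L * Ψ + 288 * C1^2 * Q ^ (1 + 2 * κ) * L * Ψ := by linarith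
      _ = _ := by rw [hC3]; ring
  -- the window length
  set H0 : ℝ := v^4 * Q ^ (1 - 5 * κ) / (4 * D^2) with hH0'
  have hH00 : 0 < H0 := by positivity
  -- one window
  have hwin : ∀ S : Finset ℝ, S ⊆ T → (∀ t ∈ S, ∀ t' ∈ S, |t - t'| ≤ H0) →
      (S.card : ℝ) ≤ C4 * (g^2 * Q ^ (1 + 4 * κ) * L * Ψ) / v^2 := by
    intro S hST hdiam
    have hsM : √(((4^j + 1 : ℕ)) : ℝ) ≤ 2 * Q := by
      rw [Real.sqrt_le_left (by positivity)]
      push_cast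
      rw [h4Q]
      nlinarith
    have hW : 23 * √(H0 * √((4^j + 1 : ℕ) : ℝ) * (1 + Real.log ((4^j + 1 : ℕ) : ℝ))) ≤ c2 * (√H0 * Q ^ ((1 + κ)/2)) := by
      have hlog0 : 0 ≤ 1 + Real.log ((4^j + 1 : ℕ) : ℝ) := by
        have : (1:ℝ) ≤ ((4^j + 1 : ℕ) : ℝ) := by push_cast; have := pow_pos (show (0:ℝ) < 4 by norm_num) j; linarith
        have := Real.log_nonneg this
        linarith
      have h1 : H0 * √((4^j + 1 : ℕ) : ℝ) * (1 + Real.log ((4^j + 1 : ℕ) : ℝ)) ≤ (2 * (2 + 2/κ)) * (H0 * Q ^ (1 + κ)) := by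
        calc _ ≤ H0 * (2 * Q) * ((2 + 2/κ) * Q ^ κ) := by
              apply mul_le_mul _ (log_M_le hκ j) hlog0 (by positivity)
              exact mul_le_mul_of_nonneg_left hsM (by positivity)
          _ = (2 * (2 + 2/κ)) * (H0 * (Q * Q ^ κ)) := by ring
          _ = _ := by rw [Real.rpow_add hQ0, Real.rpow_one]
      have h2 : √(H0 * √((4^j + 1 : ℕ) : ℝ) * (1 + Real.log ((4^j + 1 : ℕ) : ℝ))) ≤ √(2 * (2 + 2/κ)) * (√H0 * Q ^ ((1 + κ)/2)) := by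
        refine (Real.sqrt_le_sqrt h1).trans (le_of_eq ?_)
        rw [Real.sqrt_mul (show 0 ≤ 2 * (2 + 2/κ) by positivity), Real.sqrt_mul (show (0:ℝ) ≤ H0 by positivity)]
        congr 2
        rw [Real.sqrt_eq_rpow, ← Real.rpow_mul hQ0.le]
        congr 1; ring
      calc 23 * √(H0 * √((4^j + 1 : ℕ) : ℝ) * (1 + Real.log ((4^j + 1 : ℕ) : ℝ))) ≤
            23 * (√(2 * (2 + 2/κ)) * (√H0 * Q ^ ((1 + κ)/2))) := mul_le_mul_of_nonneg_left h2 (by norm_num)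
        _ = _ := by rw [hc2]; ring
    have hK : ∀ t ∈ S, ∑ t' ∈ S, ‖∑ m ∈ blk j, e ((t - t') * √(m:ℝ))‖ ≤
        3 * Q^2 + 32 * Q / η * L + S.card * (c2 * (√H0 * Q ^ ((1 + κ)/2))) := by
      intro t ht
      refine (ker_sep hη j S (hsep.mono hST) hdiam ht).trans ?_
      rw [h4Q]
      apply add_le_add le_rfl
      exact mul_le_mul_of_nonneg_left hW (by positivity)
    have h1 := dual_real S (blk j) b (fun m => √(m:ℝ)) hv.le (by positivity) (fun t ht => hvT t (hST ht)) hl2 hK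
    have e2 : Q ^ (-1 + 2 * κ) * Q^2 = Q ^ (1 + 2 * κ) := by
      rw [← Real.rpow_natCast Q 2, ← Real.rpow_add hQ0]; congr 1; push_cast; ring
    have e3 : Q ^ (-1 + 2 * κ) * Q ^ ((1 + κ)/2) = Q ^ (-(1/2) + 5/2 * κ) := by
      rw [← Real.rpow_add hQ0]; congr 1; ring
    have e4 : Q ^ (-1 + 2 * κ) * Q = Q ^ (2 * κ) := by
      nth_rewrite 2 [← Real.rpow_one Q]
      rw [← Real.rpow_add hQ0]; congr 1; ring
    have e5 : Q ^ (2 * κ) * Q ^ (1 + 2 * κ) = Q ^ (1 + 4 * κ) := by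
      rw [← Real.rpow_add hQ0]; congr 1; ring
    -- the off-diagonal part
    have hoff : 3 * C1^2 * g^2 * Q ^ (-1 + 2 * κ) * (S.card * (c2 * (√H0 * Q ^ ((1 + κ)/2)))) ≤ S.card * (v^2 / 2) := by
      have i1 : √H0 = v^2 * Q ^ (1/2 - 5/2 * κ) / (2 * D) := by
        rw [hH0', show v^4 * Q ^ (1 - 5 * κ) / (4 * D^2) = (v^2 * Q ^ (1/2 - 5/2 * κ) / (2 * D))^2 by
          rw [div_pow, mul_pow, ← pow_mul, mul_pow, ← Real.rpow_natCast (Q ^ (1/2 - 5/2 * κ)) 2, ← Real.rpow_mul hQ0.le]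
          congr 2
          · congr 1; push_cast; ring
          · norm_num]
        exact Real.sqrt_sq (by positivity)
      have i2 : 3 * C1^2 * c2 ≤ D := by rw [hD]; linarith
      calc _ = (g^2 * (3 * C1^2 * c2)) * (√H0 * (Q ^ (-1 + 2 * κ) * Q ^ ((1 + κ)/2))) * S.card := by ring
        _ ≤ (1 * D) * (√H0 * (Q ^ (-1 + 2 * κ) * Q ^ ((1 + κ)/2))) * S.card := by gcongr
        _ = D * ((v^2 * Q ^ (1/2 - 5/2 * κ) / (2 * D)) * Q ^ (-(1/2) + 5/2 * κ)) * S.card := by rw [e3, i1]; ring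
        _ = v^2/2 * (Q ^ (1/2 - 5/2 * κ) * Q ^ (-(1/2) + 5/2 * κ)) * S.card := by field_simp
        _ = S.card * (v^2/2) := by
            rw [← Real.rpow_add hQ0, show 1/2 - 5/2 * κ + (-(1/2) + 5/2 * κ) = 0 by ring, Real.rpow_zero, mul_one]
            ring
    have hon : 3 * C1^2 * g^2 * Q ^ (-1 + 2 * κ) * (3 * Q^2 + 32 * Q / η * L) ≤
        3 * C1^2 * C3 * (g^2 * Q ^ (1 + 4 * κ) * L * Ψ) := by
      calc _ = 3 * C1^2 * g^2 * (Q ^ (-1 + 2 * κ) * Q) * (3 * Q + 32 * L / η) := by ring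
        _ ≤ 3 * C1^2 * g^2 * (Q ^ (-1 + 2 * κ) * Q) * (C3 * Q ^ (1 + 2 * κ) * L * Ψ) := by gcongr
        _ = 3 * C1^2 * C3 * (g^2 * (Q ^ (2 * κ) * Q ^ (1 + 2 * κ)) * L * Ψ) := by rw [e4]; ring
        _ = _ := by rw [e5]
    have h2 : (S.card : ℝ) * v^2 ≤ 3 * C1^2 * C3 * (g^2 * Q ^ (1 + 4 * κ) * L * Ψ) + S.card * (v^2 / 2) := by
      refine h1.trans ?_
      rw [mul_add]
      exact add_le_add hon hoff
    rw [le_div_iff₀ (by positivity), hC4]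
    linarith
  -- the windows
  have hcard : (T.card : ℝ) ≤ (H / H0 + 1) * (C4 * (g^2 * Q ^ (1 + 4 * κ) * L * Ψ) / v^2) := by
    classical
    set K : ℕ := ⌊H / H0⌋₊ + 1 with hK
    have h1 : T.card = ∑ i ∈ range K, (T.filter (fun t => ⌊(t - X) / H0⌋₊ = i)).card := by
      apply card_eq_sum_card_fiberwise
      intro t ht
      rw [mem_coe] at ht
      rw [mem_coe, mem_range, hK, Nat.lt_succ_iff]
      apply Nat.floor_le_floor
      gcongr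
      linarith [(hT t ht).2]
    have h2 : ∀ i ∈ range K, ((T.filter (fun t => ⌊(t - X) / H0⌋₊ = i)).card : ℝ) ≤
        C4 * (g^2 * Q ^ (1 + 4 * κ) * L * Ψ) / v^2 := by
      intro i _
      apply hwin _ (filter_subset _ _)
      intro t ht t' ht'
      rw [mem_filter] at ht ht'
      have a1 := Nat.floor_le (div_nonneg (by linarith [(hT t ht.1).1] : 0 ≤ t - X) hH00.le)
      have a2 := Nat.floor_le (div_nonneg (by linarith [(hT t' ht'.1).1] : 0 ≤ t' - X) hH00.le)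
      have a3 := Nat.lt_floor_add_one ((t - X) / H0)
      have a4 := Nat.lt_floor_add_one ((t' - X) / H0)
      rw [ht.2] at a1 a3
      rw [ht'.2] at a2 a4
      rw [le_div_iff₀ hH00] at a1 a2
      rw [div_lt_iff₀ hH00] at a3 a4
      rw [abs_le]
      constructor <;> linarith
    have h3 : (T.card : ℝ) = ∑ i ∈ range K, ((T.filter (fun t => ⌊(t - X) / H0⌋₊ = i)).card : ℝ) := by
      rw [h1]; push_cast; rfl
    rw [h3]
    refine (sum_le_sum h2).trans ?_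
    rw [sum_const, card_range, nsmul_eq_mul]
    apply mul_le_mul_of_nonneg_right _ (by positivity)
    rw [hK]; push_cast
    have := Nat.floor_le (div_nonneg hH0 hH00.le)
    linarith
  refine hcard.trans ?_
  have f1 : H / H0 * (g^2 * Q ^ (1 + 4 * κ)) / v^2 ≤ 4 * D^2 * (H / v^6) * Q ^ (9 * κ) := by
    have e1 : Q ^ (1 + 4 * κ) / Q ^ (1 - 5 * κ) = Q ^ (9 * κ) := by
      rw [← Real.rpow_sub hQ0]; congr 1; ring
    have e2 : H / H0 * (g^2 * Q ^ (1 + 4 * κ)) / v^2 = g^2 * (4 * D^2 * (H / v^6) * (Q ^ (1 + 4 * κ) / Q ^ (1 - 5 * κ))) := by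
      rw [hH0']; field_simp
    rw [e2, e1]
    calc g^2 * (4 * D^2 * (H / v^6) * Q ^ (9 * κ)) ≤ 1 * (4 * D^2 * (H / v^6) * Q ^ (9 * κ)) := by gcongr
      _ = _ := one_mul _
  have f2 : g^2 * Q ^ (1 + 4 * κ) / v^2 ≤ g^2 * Q / v^2 * Q ^ (9 * κ) := by
    have e1 : Q ^ (1 + 4 * κ) ≤ Q * Q ^ (9 * κ) := by
      nth_rewrite 2 [← Real.rpow_one Q]
      rw [← Real.rpow_add hQ0]
      apply Real.rpow_le_rpow_of_exponent_le hQ1
      linarith
    calc g^2 * Q ^ (1 + 4 * κ) / v^2 ≤ g^2 * (Q * Q ^ (9 * κ)) / v^2 := by gcongr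
      _ = _ := by ring
  have f3 : 0 ≤ H / v^6 := by positivity
  have f4 : 0 ≤ g^2 * Q / v^2 := by positivity
  have f5 : 0 < Q ^ (9 * κ) := by positivity
  calc (H / H0 + 1) * (C4 * (g^2 * Q ^ (1 + 4 * κ) * L * Ψ) / v^2) =
        C4 * L * Ψ * (H / H0 * (g^2 * Q ^ (1 + 4 * κ)) / v^2 + g^2 * Q ^ (1 + 4 * κ) / v^2) := by ring
    _ ≤ C4 * L * Ψ * (4 * D^2 * (H / v^6) * Q ^ (9 * κ) + g^2 * Q / v^2 * Q ^ (9 * κ)) := by gcongr
    _ ≤ C4 * L * Ψ * ((4 * D^2 + 1) * (H / v^6) * Q ^ (9 * κ) + (4 * D^2 + 1) * (g^2 * Q / v^2) * Q ^ (9 * κ)) := by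
        gcongr
        · linarith
        · nlinarith [sq_nonneg D]
    _ = _ := by ring

end Pool.Agent.Y938.Sep
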