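import Mathlib
import Pool.Agent.Y938.Sep.B
import Pool.Agent.H425R3.MM.K7

/-!
# Large values of the error term at well-spaced real points
-/

open Finset Filter Topology
open Pool.Agent.H469R2.NK
open Pool.Agent.H452R2
open Pool.Agent.H383
open Pool.Agent.H383.Gauss Pool.Agent.H383.AP
open Pool.Agent.H425R3.MM

namespace Pool.Agent.Y938.Sep

/-- the number of points of a separated set -/
lemma card_sep {η X H : ℝ} (hη : 0 < η) (hH : 0 ≤ H) (T : Finset ℝ) (hS : Sepd η T) (hT : ∀ t ∈ T, X ≤ t ∧ t ≤ X + H) :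
    (T.card : ℝ) ≤ H / η + 1 := by
  have hinj : Set.InjOn (fun t : ℝ => ⌊(t - X) / η⌋₊) T := by
    intro t ht t' ht' hkk
    by_contra hne
    rw [mem_coe] at ht ht'
    have h1 := hS t ht t' ht' hne
    have a1 := Nat.floor_le (div_nonneg (by linarith [(hT t ht).1] : 0 ≤ t - X) hη.le)
    have a2 := Nat.floor_le (div_nonneg (by linarith [(hT t' ht').1] : 0 ≤ t' - X) hη.le)
    have a3 := Nat.lt_floor_add_one ((t - X) / η)
    have a4 := Nat.lt_floor_add_one ((t' - X) / η)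
    simp only at hkk
    rw [hkk] at a1 a3
    rw [le_div_iff₀ hη] at a1 a2
    rw [div_lt_iff₀ hη] at a3 a4
    have : |t - t'| < η := by
      rw [abs_lt]; constructor <;> linarith
    linarith
  have h1 : T.card ≤ (range (⌊H / η⌋₊ + 1)).card := by
    apply card_le_card_of_injOn _ _ hinj
    intro t ht
    rw [mem_coe] at ht
    rw [mem_coe, mem_range, Nat.lt_succ_iff]
    apply Nat.floor_le_floor
    gcongr
    linarith [(hT t ht).2]
  rw [card_range] at h1
  have h2 : (T.card : ℝ) ≤ ((⌊H / η⌋₊ + 1 : ℕ) : ℝ) := by exact_mod_cast h1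
  push_cast at h2
  have := Nat.floor_le (div_nonneg hH hη.le)
  linarith

variable {E : ℝ → ℝ} {a : ℕ → ℝ} {φ : ℝ} {w : ℝ → ℂ}

lemma wt_cbt (X' t δ : ℝ) (m : ℕ) : GW.wt a φ w (t + X') δ m = (cb a φ w X' δ m * e (t * √(m:ℝ))).re := by
  have h := wt_cb (a := a) (φ := φ) (w := w) X' t δ m 1
  rw [Nat.cast_one, one_mul, one_mul] at h
  rw [add_comm, h]

lemma blk_wt_le_t (X' t δ : ℝ) (j : ℕ) : |∑ m ∈ blk j, GW.wt a φ w (t + X') δ m| ≤ ‖Bt (cb a φ w X' δ) j t‖ := by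
  have h2 : ∑ m ∈ blk j, GW.wt a φ w (t + X') δ m = (Bt (cb a φ w X' δ) j t).re := by
    unfold Bt
    rw [Complex.re_sum]
    exact sum_congr rfl (fun m _ => wt_cbt X' t δ m)
  rw [h2]
  exact Complex.abs_re_le_norm _

/-- the number of large values of a sum of blocks -/
theorem sum_blv {κ C1 : ℝ} (hκ : 0 < κ) (hκ1 : κ ≤ 1) (hC1 : 0 < C1) : ∃ C : ℝ, 0 < C ∧
    ∀ (J : ℕ) (T : Finset ℝ) (X H V δ : ℝ) (b : ℕ → ℂ), 1 ≤ J → 0 ≤ H → 1 ≤ V → 0 < δ →
    Sepd (1 / V^2) T → (∀ t ∈ T, X ≤ t ∧ t ≤ X + H) →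
    (∀ m : ℕ, 1 ≤ m → ‖b m‖ ≤ C1 * Win.hw κ δ (√(m:ℝ))) → (∀ t ∈ T, V / 2 ≤ ∑ j ∈ range J, ‖Bt b j t‖) →
    (T.card : ℝ) ≤ C * ((J:ℝ)^9 * (1 + Real.log (2 * (2:ℝ)^J * V^2 + 1)) * ((2:ℝ)^J) ^ (9 * κ)) *
      (H / V^6 + 1 / (δ * V^2)) := by
  obtain ⟨Ca, hCa, hL⟩ := blv (κ := κ) hκ hC1
  refine ⟨320 * Ca, by positivity, ?_⟩
  intro J T X H V δ b hJ hH hV hδ hsep hT hb hvT
  classical
  have hV0 : 0 < V := by linarith
  have hJ0 : (0:ℝ) < J := by exact_mod_cast hJ
  have hJ1 : (1:ℝ) ≤ J := by exact_mod_cast hJ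
  have hη : 0 < 1 / V^2 := by positivity
  set v : ℝ := V / (2 * J) with hv
  have hv0 : 0 < v := by positivity
  set L : ℝ := 1 + Real.log (2 * (2:ℝ)^J * V^2 + 1) with hLd
  have hL1 : 1 ≤ L := by
    have h1 : 1 ≤ 2 * (2:ℝ)^J * V^2 + 1 := by
      have : 0 ≤ 2 * (2:ℝ)^J * V^2 := by positivity
      linarith
    have := Real.log_nonneg h1
    linarith
  set B : ℝ := 64 * (J:ℝ)^6 * (H / V^6 + 1 / (δ * V^2)) with hB
  have hB0 : 0 ≤ B := by positivity
  -- one block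
  have hblk : ∀ j ∈ range J, ((T.filter (fun t => v ≤ ‖Bt b j t‖)).card : ℝ) ≤
      Ca * (L * (5 * (J:ℝ)^2) * ((2:ℝ)^J) ^ (9 * κ)) * B := by
    intro j hj
    rw [mem_range] at hj
    set Q : ℝ := (2:ℝ)^j with hQ
    have hQ1 : 1 ≤ Q := one_le_pow₀ (by norm_num)
    have hQ0 : 0 < Q := by linarith
    have hQJ : Q ≤ (2:ℝ)^J := pow_le_pow_right₀ (by norm_num) hj.le
    set g : ℝ := min 1 ((δ * Q) ^ (-(3/2):ℝ)) with hg
    have hg0 : 0 < g := by positivity
    have hg1 : g ≤ 1 := min_le_left _ _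
    have hbB : ∀ m ∈ blk j, ‖b m‖ ≤ C1 * g * Q ^ (-(3/2) + κ) := by
      intro m hm
      unfold blk at hm
      rw [mem_Ioc] at hm
      have hm1 : 1 ≤ m := by
        have : 0 < 4^j := by positivity
        omega
      have hsQ : Q ≤ √(m:ℝ) := by
        apply Real.le_sqrt_of_sq_le
        rw [← four_eq j]
        exact_mod_cast hm.1.le
      refine (hb m hm1).trans ?_
      unfold Win.hw
      rw [mul_assoc]
      apply mul_le_mul_of_nonneg_left _ hC1.le
      rw [mul_comm]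
      apply mul_le_mul _ _ (by positivity) hg0.le
      · apply min_le_min le_rfl
        apply Real.rpow_le_rpow_of_nonpos (by positivity) _ (by norm_num)
        exact mul_le_mul_of_nonneg_left hsQ hδ.le
      · exact Real.rpow_le_rpow_of_nonpos hQ0 hsQ (by linarith)
    have h1 := hL j (T.filter (fun t => v ≤ ‖Bt b j t‖)) X H (1 / V^2) v g b hη hH hv0 hg0.le hg1
      (hsep.mono (filter_subset _ _)) (fun t ht => hT t (mem_of_mem_filter t ht)) hbB
      (fun t ht => (mem_filter.mp ht).2)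
    refine h1.trans ?_
    have f1 : 1 + 1 / (1 / V^2 * v^2) ≤ 5 * (J:ℝ)^2 := by
      have : 1 / (1 / V^2 * v^2) = 4 * (J:ℝ)^2 := by rw [hv]; field_simp; norm_num
      rw [this]
      nlinarith
    have f2 : 1 + Real.log (2 * Q / (1 / V^2) + 1) ≤ L := by
      have e1 : 2 * Q / (1 / V^2) = 2 * Q * V^2 := by field_simp
      rw [e1, hLd]
      have h2 : (0:ℝ) < 2 * Q * V^2 + 1 := by positivity
      have h3 : 2 * Q * V^2 + 1 ≤ 2 * (2:ℝ)^J * V^2 + 1 := by gcongr
      have := Real.log_le_log h2 h3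
      linarith
    have f3 : Q ^ (9 * κ) ≤ ((2:ℝ)^J) ^ (9 * κ) := Real.rpow_le_rpow hQ0.le hQJ (by positivity)
    have f4 : g^2 * Q ≤ 1 / δ := by
      rcases le_total (δ * Q) 1 with h7 | h7
      · calc g^2 * Q ≤ 1 * Q := by
              gcongr
              exact pow_le_one₀ hg0.le hg1
          _ ≤ 1 / δ := by rw [le_div_iff₀ hδ]; linarith
      · have h8 : g^2 ≤ (δ * Q)⁻¹ := by
          calc g^2 ≤ ((δ * Q) ^ (-(3/2):ℝ))^2 := pow_le_pow_left₀ hg0.le (min_le_right _ _) 2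
            _ = (δ * Q) ^ (-3:ℝ) := by
                rw [← Real.rpow_natCast, ← Real.rpow_mul (by positivity)]; norm_num
            _ ≤ (δ * Q) ^ (-1:ℝ) := Real.rpow_le_rpow_of_exponent_le h7 (by norm_num)
            _ = _ := Real.rpow_neg_one _
        calc g^2 * Q ≤ (δ * Q)⁻¹ * Q := by gcongr
          _ = 1 / δ := by field_simp
    have f5 : H / v^6 + g^2 * Q / v^2 ≤ B := by
      have e1 : H / v^6 = 64 * (J:ℝ)^6 * (H / V^6) := by rw [hv]; field_simp; norm_num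
      have e2 : g^2 * Q / v^2 ≤ 64 * (J:ℝ)^6 * (1 / (δ * V^2)) := by
        calc g^2 * Q / v^2 ≤ (1 / δ) / v^2 := by gcongr
          _ = 4 * (J:ℝ)^2 * (1 / (δ * V^2)) := by rw [hv]; field_simp; norm_num
          _ ≤ 64 * (J:ℝ)^6 * (1 / (δ * V^2)) := by
              gcongr
              · norm_num
              · norm_num
      rw [e1, hB, mul_add]
      linarith
    have hlog0 : 0 ≤ 1 + Real.log (2 * Q / (1 / V^2) + 1) := by
      have h1 : 1 ≤ 2 * Q / (1 / V^2) + 1 := by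
        have : 0 ≤ 2 * Q / (1 / V^2) := by positivity
        linarith
      have := Real.log_nonneg h1
      linarith
    gcongr
  -- union over the blocks
  have hsub : T ⊆ (range J).biUnion (fun j => T.filter (fun t => v ≤ ‖Bt b j t‖)) := by
    intro t ht
    rw [mem_biUnion]
    by_contra hcon
    push Not at hcon
    have h1 : ∀ j ∈ range J, ‖Bt b j t‖ < v := by
      intro j hj
      have := hcon j hj
      rw [mem_filter] at this
      by_contra h2
      push Not at h2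
      exact this ⟨ht, h2⟩
    have h2 : ∑ j ∈ range J, ‖Bt b j t‖ < ∑ j ∈ range J, v :=
      sum_lt_sum_of_nonempty ⟨0, mem_range.mpr (by omega)⟩ h1
    rw [sum_const, card_range, nsmul_eq_mul, hv] at h2
    have h3 : (J:ℝ) * (V / (2 * J)) = V / 2 := by field_simp
    rw [h3] at h2
    linarith [hvT t ht]
  have hcard : (T.card : ℝ) ≤ ∑ j ∈ range J, ((T.filter (fun t => v ≤ ‖Bt b j t‖)).card : ℝ) := by
    exact_mod_cast (card_le_card hsub).trans card_biUnion_le
  refine hcard.trans ((sum_le_sum hblk).trans ?_)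
  rw [sum_const, card_range, nsmul_eq_mul, hB]
  apply le_of_eq
  ring

end Pool.Agent.Y938.Sep
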