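import Mathlib
import Pool.Agent.Y938.Sep.C

/-!
# Large values of the error term at well-spaced real points: the main theorem
-/

open Finset Filter Topology
open Pool.Agent.H469R2.NK
open Pool.Agent.H452R2
open Pool.Agent.H383
open Pool.Agent.H383.Gauss Pool.Agent.H383.AP
open Pool.Agent.H425R3.MM

namespace Pool.Agent.Y938.Sep

/-- the number of blocks -/
lemma exists_J {Z : ℝ} (hZ : 2 ≤ Z) {κ : ℝ} (hκ : 0 < κ) : ∃ J : ℕ, 1 ≤ J ∧ Z ≤ (2:ℝ)^J ∧ (2:ℝ)^J ≤ 2 * Z ∧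
    (J:ℝ) ≤ (2/κ + 1) * Z ^ κ := by
  have hZ0 : 0 < Z := by linarith
  refine ⟨⌈Real.logb 2 Z⌉₊, ?_, ?_, ?_, ?_⟩
  · rw [Nat.one_le_ceil_iff]
    exact Real.logb_pos (by norm_num) (by linarith)
  · have h1 : Real.logb 2 Z ≤ (⌈Real.logb 2 Z⌉₊ : ℝ) := Nat.le_ceil _
    calc Z = (2:ℝ) ^ (Real.logb 2 Z) := (Real.rpow_logb (by norm_num) (by norm_num) hZ0).symm
      _ ≤ (2:ℝ) ^ ((⌈Real.logb 2 Z⌉₊ : ℕ) : ℝ) := Real.rpow_le_rpow_of_exponent_le (by norm_num) h1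
      _ = _ := Real.rpow_natCast _ _
  · have h0 : 0 ≤ Real.logb 2 Z := (Real.logb_pos (by norm_num) (by linarith)).le
    have h1 : (⌈Real.logb 2 Z⌉₊ : ℝ) ≤ Real.logb 2 Z + 1 := (Nat.ceil_lt_add_one h0).le
    calc (2:ℝ)^⌈Real.logb 2 Z⌉₊ = (2:ℝ) ^ ((⌈Real.logb 2 Z⌉₊ : ℕ) : ℝ) := (Real.rpow_natCast _ _).symm
      _ ≤ (2:ℝ) ^ (Real.logb 2 Z + 1) := Real.rpow_le_rpow_of_exponent_le (by norm_num) h1
      _ = 2 * Z := by
          rw [Real.rpow_add (by norm_num), Real.rpow_logb (by norm_num) (by norm_num) hZ0, Real.rpow_one]; ring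
  · have h0 : 0 ≤ Real.logb 2 Z := (Real.logb_pos (by norm_num) (by linarith)).le
    have h1 : (⌈Real.logb 2 Z⌉₊ : ℝ) ≤ Real.logb 2 Z + 1 := (Nat.ceil_lt_add_one h0).le
    have h2 : Real.logb 2 Z ≤ 2 * Real.log Z := by
      unfold Real.logb
      have h3 := Real.log_two_gt_d9
      rw [div_le_iff₀ (by linarith)]
      have h4 : 0 ≤ Real.log Z := Real.log_nonneg (by linarith)
      nlinarith
    have h3 := Real.log_le_rpow_div hZ0.le hκ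
    have h4 : 1 ≤ Z ^ κ := Real.one_le_rpow (by linarith) hκ.le
    calc (⌈Real.logb 2 Z⌉₊ : ℝ) ≤ 2 * (Z ^ κ / κ) + 1 := by linarith
      _ ≤ 2 * (Z ^ κ / κ) + Z ^ κ := by linarith
      _ = _ := by ring

variable {E : ℝ → ℝ} {a : ℕ → ℝ} {φ : ℝ} {w : ℝ → ℂ}

/-- large values of the error term at well-spaced real points -/
theorem lv_sep (ha : Win.Bdw a) (ha0 : a 0 = 0) (hw : GW.Wt w) {κ₁ κ₂ : ℝ} (hS : Win.SandW E a φ w κ₁ κ₂)
    {ε : ℝ} (hε : 0 < ε) :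
    ∃ C : ℝ, 0 < C ∧ ∃ X0 : ℕ, ∀ X : ℝ, (X0:ℝ) ≤ X → ∀ H : ℝ, 0 ≤ H → H ≤ X → ∀ V : ℝ, 1 ≤ V → ∀ T : Finset ℝ,
    Sepd (1/V^2) T → (∀ t ∈ T, X ≤ t ∧ t ≤ X + H) → (∀ t ∈ T, V ≤ |E t|) →
    (T.card : ℝ) ≤ C * X ^ ε * (H / V^6 + X ^ (1/2:ℝ) / V^3) := by
  have hE0 := supE ha ha0 hw hS (η := 1/100) (by norm_num) (by norm_num)
  obtain ⟨Cs, hCs, hsup⟩ := hE0
  set κ : ℝ := min ε 1 / 100 with hκd
  have hm1 : min ε 1 ≤ 1 := min_le_right _ _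
  have hmε : min ε 1 ≤ ε := min_le_left _ _
  have hκ : 0 < κ := by rw [hκd]; positivity
  have hκ100 : κ ≤ 1/100 := by rw [hκd]; linarith
  have hκε : 100 * κ ≤ ε := by rw [hκd]; linarith
  set ω : ℝ := κ / 2 with hωd
  have hω : 0 < ω := by positivity
  have hω200 : ω ≤ 1/200 := by rw [hωd]; linarith
  obtain ⟨Ca, hCa, haC⟩ := ha (κ/2) (by positivity)
  obtain ⟨Cw, hCw, hwd⟩ := hw.dec
  obtain ⟨Cb, hCb, hB⟩ := sum_blv (κ := κ) (C1 := Ca * (Cw + 1)) hκ (by linarith) (by positivity)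
  obtain ⟨Ct, hCt, htail⟩ := GW.WS_tail (a := a) (φ := φ) ha.Bd ha0 hw
  obtain ⟨C0, hC0, hS⟩ := hS (ω/2) (by positivity)
  set V0 : ℝ := 8 * |a 1| + 1 with hV0
  have hV01 : 1 ≤ V0 := by have := abs_nonneg (a 1); rw [hV0]; linarith
  obtain ⟨Z1, hZ1⟩ := ev_small C0 (y := ω/2) (η := 1/24) (by positivity) (by norm_num)
  obtain ⟨Z2, hZ2⟩ := ev_small (2 * C0) (y := 1/5) (η := 1/24) (by norm_num) (by norm_num)
  obtain ⟨Z3, hZ3⟩ := ev_small C0 (y := 3/25) (η := 1/24) (by norm_num) (by norm_num)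
  obtain ⟨Z4, hZ4⟩ := ev_small Ct (y := 1/5) (η := 1/8) (by norm_num) (by norm_num)
  obtain ⟨Z5, hZ5⟩ := ev_small Cs (y := 7/300) (η := 1/2) (by norm_num) (by norm_num)
  obtain ⟨Z6, hZ6⟩ := ev_small 1 (y := 3/10) (η := 1/2) (by norm_num) (by norm_num)
  set CA : ℝ := (2/κ + 1)^9 * (3 + 2/κ) * 2 with hCA
  have hCA0 : 0 < CA := by positivity
  refine ⟨V0 ^ 8 + 8 * Cb * CA, by positivity, Z1 + Z2 + Z3 + Z4 + Z5 + Z6 + 4, ?_⟩
  intro X hX H hH0 hHX V hV T hsep hT hVT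
  push_cast at hX
  have hV0' : 0 < V := by linarith
  have hcn : ∀ k : ℕ, (0:ℝ) ≤ k := fun k => Nat.cast_nonneg k
  have hX4 : 4 ≤ X := by linarith [hcn Z1, hcn Z2, hcn Z3, hcn Z4, hcn Z5, hcn Z6]
  have hX0 : 0 < X := by linarith
  have hX1 : 1 ≤ X := by linarith
  set Z : ℝ := 2 * X with hZ
  have hZ0 : 0 < Z := by linarith
  have hZ1' : 1 ≤ Z := by linarith
  have z1 := hZ1 Z (by linarith [hcn Z1, hcn Z2, hcn Z3, hcn Z4, hcn Z5, hcn Z6])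
  have z2 := hZ2 Z (by linarith [hcn Z1, hcn Z2, hcn Z3, hcn Z4, hcn Z5, hcn Z6])
  have z3 := hZ3 Z (by linarith [hcn Z1, hcn Z2, hcn Z3, hcn Z4, hcn Z5, hcn Z6])
  have z4 := hZ4 Z (by linarith [hcn Z1, hcn Z2, hcn Z3, hcn Z4, hcn Z5, hcn Z6])
  have z5 := hZ5 Z (by linarith [hcn Z1, hcn Z2, hcn Z3, hcn Z4, hcn Z5, hcn Z6])
  have z6 := hZ6 Z (by linarith [hcn Z1, hcn Z2, hcn Z3, hcn Z4, hcn Z5, hcn Z6])
  have hXε : 1 ≤ X ^ ε := Real.one_le_rpow hX1 hε.le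
  have hXh : 1 ≤ X ^ (1/2:ℝ) := Real.one_le_rpow hX1 (by norm_num)
  have hT1 : 0 ≤ H / V^6 := by positivity
  have hT2 : 0 ≤ X ^ (1/2:ℝ) / V^3 := by positivity
  -- small V
  rcases lt_or_ge V V0 with hvV | hvV
  · have h1 := card_sep (η := 1/V^2) (by positivity) hH0 T hsep hT
    have h2 : H / (1/V^2) ≤ V0^8 * (H / V^6) := by
      have e1 : H / (1/V^2) = V^8 * (H / V^6) := by field_simp
      rw [e1]
      gcongr
    have h3 : (1:ℝ) ≤ V0^8 * (X ^ (1/2:ℝ) / V^3) := by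
      have e1 : V^3 ≤ V0^8 := by
        calc V^3 ≤ V0^3 := by gcongr
          _ ≤ V0^8 := pow_le_pow_right₀ hV01 (by norm_num)
      rw [mul_div_assoc', le_div_iff₀ (by positivity), one_mul]
      calc V^3 ≤ V0^8 * 1 := by linarith
        _ ≤ _ := by gcongr
    calc (T.card : ℝ) ≤ V0^8 * 1 * (H / V^6 + X ^ (1/2:ℝ) / V^3) := by linarith
      _ ≤ (V0 ^ 8 + 8 * Cb * CA) * X ^ ε * (H / V^6 + X ^ (1/2:ℝ) / V^3) := by
          gcongr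
          have : 0 ≤ 8 * Cb * CA := by positivity
          linarith
  -- large V
  rcases lt_or_ge (Z ^ (1/5:ℝ)) V with hvZ | hvZ
  · rcases T.eq_empty_or_nonempty with rfl | ⟨t, ht⟩
    · rw [card_empty, Nat.cast_zero]; positivity
    exfalso
    have ht1 := hT t ht
    have ht4 : 4 ≤ t := by linarith [ht1.1]
    have ht0 : 0 < t := by linarith
    have htZ : t ≤ Z := by linarith [ht1.2]
    have h2 := hsup t t ht4 (by rw [sub_self, abs_zero]; positivity)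
    have h3 : Cs * t ^ (1/6 + 1/100:ℝ) ≤ (1/2) * Z ^ (1/5:ℝ) := by
      calc Cs * t ^ (1/6 + 1/100:ℝ) ≤ Cs * Z ^ (1/6 + 1/100:ℝ) := by gcongr
        _ = (Cs * Z ^ (-(7/300):ℝ)) * Z ^ (1/5:ℝ) := by
            rw [mul_assoc, ← Real.rpow_add hZ0]; norm_num
        _ ≤ (1/2) * Z ^ (1/5:ℝ) := mul_le_mul_of_nonneg_right z5 (by positivity)
    have h4 := hVT t ht
    have h5 : 0 < Z ^ (1/5:ℝ) := by positivity
    linarith
  -- the main range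
  set δ : ℝ := V * Z ^ (-(1/2 + ω)) with hδ
  have hZω : 0 < Z ^ (-(1/2 + ω)) := by positivity
  have hδ0 : 0 < δ := by positivity
  have hδZ : Z ^ (-(1/2 + ω)) ≤ δ := by rw [hδ]; nlinarith
  have hδ310 : δ ≤ Z ^ (-(3/10):ℝ) := by
    calc δ ≤ Z ^ (1/5:ℝ) * Z ^ (-(1/2 + ω)) := by rw [hδ]; exact mul_le_mul_of_nonneg_right hvZ hZω.le
      _ = Z ^ (1/5 + -(1/2 + ω)) := by rw [← Real.rpow_add hZ0]
      _ ≤ _ := Real.rpow_le_rpow_of_exponent_le hZ1' (by linarith)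
  have hδ12 : δ ≤ 1/2 := by linarith
  obtain ⟨J, hJ1, hJZ, hJ2, hJκ⟩ := exists_J (Z := Z) (by linarith) hκ
  -- coefficients
  have hbb : ∀ X' : ℝ, ∀ m : ℕ, 1 ≤ m → ‖cb a φ w X' δ m‖ ≤ Ca * (Cw + 1) * Win.hw κ δ (√(m:ℝ)) := by
    intro X' m hm
    have hm0 : (0:ℝ) < m := by exact_mod_cast hm
    have hs : 0 < √(m:ℝ) := Real.sqrt_pos.mpr hm0
    unfold cb
    rw [norm_mul, Gen.norm_ac]
    unfold Win.hw
    have h2 := haC m hm
    have h5 : ‖w (√(m:ℝ) * δ)‖ ≤ (Cw + 1) * min 1 ((δ * √(m:ℝ)) ^ (-(3/2):ℝ)) := by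
      have h3 := hw.one (√(m:ℝ) * δ) (by positivity)
      have h4 := hwd (√(m:ℝ) * δ) (by positivity)
      set y := √(m:ℝ) * δ with hy
      have hy0 : 0 < y := by positivity
      rw [show δ * √(m:ℝ) = y by rw [hy]; ring]
      rcases min_choice (1:ℝ) (y ^ (-(3/2):ℝ)) with hc | hc
      · rw [hc]; linarith
      · rw [hc]
        have : 0 ≤ y ^ (-(3/2):ℝ) := by positivity
        linarith
    have h6 : (m:ℝ) ^ (-(3/4) + κ/2) = (√(m:ℝ)) ^ (-(3/2) + κ) := by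
      rw [Real.sqrt_eq_rpow, ← Real.rpow_mul hm0.le]; congr 1; ring
    rw [h6] at h2
    calc |a m| * ‖w (√(m:ℝ) * δ)‖ ≤ (Ca * (√(m:ℝ)) ^ (-(3/2) + κ)) * ((Cw + 1) * min 1 ((δ * √(m:ℝ)) ^ (-(3/2):ℝ))) :=
          mul_le_mul h2 h5 (norm_nonneg _) (by positivity)
      _ = _ := by ring
  -- the smoothed series
  have hWS : ∀ (κ' t : ℝ), |GW.WS a φ w (t + κ' * δ) δ| ≤
      |a 1| + ∑ j ∈ range J, ‖Bt (cb a φ w (κ' * δ) δ) j t‖ + 1/8 := by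
    intro κ' t
    have t1 := htail δ hδ0 (t + κ' * δ) (2^J) Nat.one_le_two_pow
    have e4 : ((2^J)^2 : ℕ) = 4^J := by rw [← pow_mul, mul_comm, pow_mul]; norm_num
    rw [e4, Pool.Agent.H425R3.MM.sum_blocks] at t1
    have t2 : Ct * δ ^ (-(3/2):ℝ) * ((2^J : ℕ):ℝ) ^ (-(24/25):ℝ) ≤ 1/8 := by
      have i1 : δ ^ (-(3/2):ℝ) ≤ Z ^ (3/4 + 3/2 * ω) := by
        calc δ ^ (-(3/2):ℝ) ≤ (Z ^ (-(1/2 + ω))) ^ (-(3/2):ℝ) := Real.rpow_le_rpow_of_nonpos hZω hδZ (by norm_num)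
          _ = _ := by rw [← Real.rpow_mul hZ0.le]; congr 1; ring
      have i2 : ((2^J : ℕ):ℝ) ^ (-(24/25):ℝ) ≤ Z ^ (-(24/25):ℝ) := by
        apply Real.rpow_le_rpow_of_nonpos hZ0 _ (by norm_num)
        push_cast; exact hJZ
      calc Ct * δ ^ (-(3/2):ℝ) * ((2^J : ℕ):ℝ) ^ (-(24/25):ℝ) ≤ Ct * Z ^ (3/4 + 3/2 * ω) * Z ^ (-(24/25):ℝ) := by gcongr
        _ = Ct * Z ^ (3/4 + 3/2 * ω + -(24/25)) := by rw [mul_assoc, ← Real.rpow_add hZ0]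
        _ ≤ Ct * Z ^ (-(1/5):ℝ) := by
            apply mul_le_mul_of_nonneg_left _ hCt.le
            exact Real.rpow_le_rpow_of_exponent_le hZ1' (by linarith)
        _ ≤ _ := z4
    have t3 : |GW.wt a φ w (t + κ' * δ) δ 1| ≤ |a 1| := by
      refine (GW.abs_wt_le _ _ _).trans ?_
      have := hw.one (√((1:ℕ):ℝ) * δ) (by rw [Nat.cast_one, Real.sqrt_one, one_mul]; exact hδ0)
      calc |a 1| * ‖w (√((1:ℕ):ℝ) * δ)‖ ≤ |a 1| * 1 := mul_le_mul_of_nonneg_left this (abs_nonneg _)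
        _ = _ := mul_one _
    have t4 : |∑ j ∈ range J, ∑ m ∈ blk j, GW.wt a φ w (t + κ' * δ) δ m| ≤
        ∑ j ∈ range J, ‖Bt (cb a φ w (κ' * δ) δ) j t‖ :=
      (abs_sum_le_sum_abs _ _).trans (sum_le_sum (fun j _ => blk_wt_le_t _ _ _ _))
    set A := GW.WS a φ w (t + κ' * δ) δ
    set B := GW.wt a φ w (t + κ' * δ) δ 1
    set D := ∑ j ∈ range J, ∑ m ∈ blk j, GW.wt a φ w (t + κ' * δ) δ m
    have t5 : |A| ≤ |A - (B + D)| + |B| + |D| := by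
      calc |A| = |(A - (B + D)) + B + D| := by congr 1; ring
        _ ≤ |(A - (B + D)) + B| + |D| := abs_add_le _ _
        _ ≤ _ := by gcongr; exact abs_add_le _ _
    linarith
  -- the error term
  have herr : ∀ t ∈ T, C0 * Win.erw (ω/2) t δ ≤ V / 8 := by
    intro t ht
    have ht1 := hT t ht
    have ht4 : 4 ≤ t := by linarith [ht1.1]
    have ht0 : 0 < t := by linarith
    have htZ : t ≤ Z := by linarith [ht1.2]
    have i1 : C0 * (δ * t ^ (1/2 + ω/2)) ≤ V / 24 := by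
      calc C0 * (δ * t ^ (1/2 + ω/2)) ≤ C0 * (δ * Z ^ (1/2 + ω/2)) := by gcongr
        _ = V * (C0 * (Z ^ (-(1/2 + ω)) * Z ^ (1/2 + ω/2))) := by rw [hδ]; ring
        _ = V * (C0 * Z ^ (-(ω/2))) := by rw [← Real.rpow_add hZ0]; congr 3; ring
        _ ≤ V * (1/24) := mul_le_mul_of_nonneg_left z1 hV0'.le
        _ = V / 24 := by ring
    have i2 : C0 * (t ^ (-(12/25):ℝ) * δ ^ (-(13/25):ℝ)) ≤ V / 24 := by
      have j1 : t ^ (-(12/25):ℝ) ≤ 2 * Z ^ (-(12/25):ℝ) := by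
        calc t ^ (-(12/25):ℝ) ≤ (Z / 2) ^ (-(12/25):ℝ) := by
              apply Real.rpow_le_rpow_of_nonpos (by positivity) _ (by norm_num)
              rw [hZ]; linarith [ht1.1]
          _ = (1/2:ℝ) ^ (-(12/25):ℝ) * Z ^ (-(12/25):ℝ) := by
              rw [← Real.mul_rpow (by positivity) hZ0.le]; congr 1; ring
          _ ≤ 2 * Z ^ (-(12/25):ℝ) := by
              apply mul_le_mul_of_nonneg_right _ (by positivity)
              calc (1/2:ℝ) ^ (-(12/25):ℝ) ≤ (1/2:ℝ) ^ (-1:ℝ) :=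
                    Real.rpow_le_rpow_of_exponent_ge (by norm_num) (by norm_num) (by norm_num)
                _ = 2 := by rw [Real.rpow_neg_one]; norm_num
      have j2 : δ ^ (-(13/25):ℝ) ≤ Z ^ ((1/2 + ω) * (13/25)) := by
        calc δ ^ (-(13/25):ℝ) ≤ (Z ^ (-(1/2 + ω))) ^ (-(13/25):ℝ) := Real.rpow_le_rpow_of_nonpos hZω hδZ (by norm_num)
          _ = _ := by rw [← Real.rpow_mul hZ0.le]; congr 1; ring
      calc C0 * (t ^ (-(12/25):ℝ) * δ ^ (-(13/25):ℝ)) ≤ C0 * ((2 * Z ^ (-(12/25):ℝ)) * Z ^ ((1/2 + ω) * (13/25))) := by gcongr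
        _ = 2 * C0 * Z ^ (-(12/25) + (1/2 + ω) * (13/25)) := by rw [Real.rpow_add hZ0]; ring
        _ ≤ 2 * C0 * Z ^ (-(1/5):ℝ) := by
            apply mul_le_mul_of_nonneg_left _ (by positivity)
            exact Real.rpow_le_rpow_of_exponent_le hZ1' (by linarith)
        _ ≤ 1/24 := z2
        _ ≤ V/24 := by linarith
    have i3 : C0 * δ ^ (2/5:ℝ) ≤ V / 24 := by
      calc C0 * δ ^ (2/5:ℝ) ≤ C0 * (Z ^ (-(3/10):ℝ)) ^ (2/5:ℝ) := by gcongr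
        _ = C0 * Z ^ (-(3/25):ℝ) := by rw [← Real.rpow_mul hZ0.le]; norm_num
        _ ≤ 1/24 := z3
        _ ≤ V/24 := by linarith
    unfold Win.erw
    have : C0 * (δ * t ^ (1/2 + ω/2) + t ^ (-(12/25):ℝ) * δ ^ (-(13/25):ℝ) + δ ^ (2/5:ℝ)) =
        C0 * (δ * t ^ (1/2 + ω/2)) + C0 * (t ^ (-(12/25):ℝ) * δ ^ (-(13/25):ℝ)) + C0 * δ ^ (2/5:ℝ) := by ring
    linarith
  -- inclusion
  classical
  have ha1v : |a 1| ≤ V / 8 := by rw [hV0] at hvV; linarith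
  set T1 := T.filter (fun t => V / 2 ≤ ∑ j ∈ range J, ‖Bt (cb a φ w (κ₁ * δ) δ) j t‖) with hT1d
  set T2 := T.filter (fun t => V / 2 ≤ ∑ j ∈ range J, ‖Bt (cb a φ w (κ₂ * δ) δ) j t‖) with hT2d
  have hsub : T ⊆ T1 ∪ T2 := by
    intro t ht
    have hvn := hVT t ht
    have ht1 := hT t ht
    have ht4 : 4 ≤ t := by linarith [ht1.1]
    obtain ⟨h1, h2⟩ := hS t t δ ht4 hδ0 hδ12 (by rw [sub_self, abs_zero]; exact hδ0.le)
    have g1 := hWS κ₁ t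
    have g2 := hWS κ₂ t
    have g3 := herr t ht
    rw [mem_union, mem_filter, mem_filter]
    rcases le_abs.mp hvn with h3 | h3
    · left
      refine ⟨ht, ?_⟩
      have := le_abs_self (GW.WS a φ w (t + κ₁ * δ) δ)
      linarith
    · right
      refine ⟨ht, ?_⟩
      have := neg_abs_le (GW.WS a φ w (t + κ₂ * δ) δ)
      linarith
  have b1 := hB J T1 X H V δ (cb a φ w (κ₁ * δ) δ) hJ1 hH0 hV hδ0 (hsep.mono (filter_subset _ _))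
    (fun t ht => hT t (mem_of_mem_filter t ht)) (hbb _) (fun t ht => (mem_filter.mp ht).2)
  have b2 := hB J T2 X H V δ (cb a φ w (κ₂ * δ) δ) hJ1 hH0 hV hδ0 (hsep.mono (filter_subset _ _))
    (fun t ht => hT t (mem_of_mem_filter t ht)) (hbb _) (fun t ht => (mem_filter.mp ht).2)
  have hcard : (T.card : ℝ) ≤ T1.card + T2.card := by
    exact_mod_cast (card_le_card hsub).trans (card_union_le _ _)
  -- the sizes
  have s1 : (J:ℝ)^9 ≤ (2/κ + 1)^9 * Z ^ (9 * κ) := by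
    calc (J:ℝ)^9 ≤ ((2/κ + 1) * Z ^ κ)^9 := by gcongr
      _ = (2/κ + 1)^9 * (Z ^ κ)^9 := by ring
      _ = _ := by
          congr 1
          rw [← Real.rpow_natCast, ← Real.rpow_mul hZ0.le]
          congr 1; push_cast; ring
  have s2 : 1 + Real.log (2 * (2:ℝ)^J * V^2 + 1) ≤ (3 + 2/κ) * Z ^ κ := by
    have h1 : V^2 ≤ Z := by
      calc V^2 ≤ (Z ^ (1/5:ℝ))^2 := by gcongr
        _ = Z ^ (2/5:ℝ) := by rw [← Real.rpow_natCast, ← Real.rpow_mul hZ0.le]; norm_num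
        _ ≤ Z ^ (1:ℝ) := Real.rpow_le_rpow_of_exponent_le hZ1' (by norm_num)
        _ = Z := Real.rpow_one _
    have h2 : 2 * (2:ℝ)^J * V^2 + 1 ≤ 5 * Z^2 := by
      have h3 : 2 * (2:ℝ)^J * V^2 ≤ 2 * (2 * Z) * Z := by gcongr
      nlinarith
    have h3 : Real.log (2 * (2:ℝ)^J * V^2 + 1) ≤ Real.log (5 * Z^2) := Real.log_le_log (by positivity) h2
    have h4 : Real.log (5 * Z^2) = Real.log 5 + 2 * Real.log Z := by
      rw [Real.log_mul (by norm_num) (by positivity), Real.log_pow]; push_cast; ring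
    have h5 : Real.log 5 ≤ 2 := by
      rw [Real.log_le_iff_le_exp (by norm_num)]
      have := Real.exp_one_gt_d9
      have e1 : Real.exp 2 = Real.exp 1 * Real.exp 1 := by rw [← Real.exp_add]; norm_num
      rw [e1]; nlinarith
    have h6 := Real.log_le_rpow_div hZ0.le hκ
    have h7 : 1 ≤ Z ^ κ := Real.one_le_rpow hZ1' hκ.le
    calc 1 + Real.log (2 * (2:ℝ)^J * V^2 + 1) ≤ 3 + 2 * (Z ^ κ / κ) := by linarith
      _ ≤ 3 * Z ^ κ + 2 * (Z ^ κ / κ) := by linarith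
      _ = _ := by ring
  have s3 : ((2:ℝ)^J) ^ (9 * κ) ≤ 2 * Z ^ (9 * κ) := by
    calc ((2:ℝ)^J) ^ (9 * κ) ≤ (2 * Z) ^ (9 * κ) := Real.rpow_le_rpow (by positivity) hJ2 (by positivity)
      _ = 2 ^ (9 * κ) * Z ^ (9 * κ) := Real.mul_rpow (by norm_num) hZ0.le
      _ ≤ 2 * Z ^ (9 * κ) := by
          gcongr
          calc (2:ℝ) ^ (9 * κ) ≤ 2 ^ (1:ℝ) := Real.rpow_le_rpow_of_exponent_le (by norm_num) (by linarith)
            _ = 2 := Real.rpow_one _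
  have s4 : H / V^6 + 1 / (δ * V^2) ≤ Z ^ κ * (H / V^6 + Z ^ (1/2:ℝ) / V^3) := by
    have h7 : 1 ≤ Z ^ κ := Real.one_le_rpow hZ1' hκ.le
    have e1 : 1 / (δ * V^2) = Z ^ (1/2 + ω) / V^3 := by
      have : Z ^ (-(1/2 + ω)) = (Z ^ (1/2 + ω))⁻¹ := Real.rpow_neg hZ0.le _
      rw [hδ, this]; field_simp
    have e2 : Z ^ (1/2 + ω) ≤ Z ^ κ * Z ^ (1/2:ℝ) := by
      rw [← Real.rpow_add hZ0]
      apply Real.rpow_le_rpow_of_exponent_le hZ1'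
      rw [hωd]; linarith
    rw [e1, mul_add]
    apply add_le_add
    · nlinarith
    · calc Z ^ (1/2 + ω) / V^3 ≤ (Z ^ κ * Z ^ (1/2:ℝ)) / V^3 := by gcongr
        _ = _ := by ring
  have s5 : Z ^ (20 * κ) ≤ 2 * X ^ ε := by
    rw [hZ, Real.mul_rpow (by norm_num) hX0.le]
    have e1 : (2:ℝ) ^ (20 * κ) ≤ 2 := by
      calc (2:ℝ) ^ (20 * κ) ≤ 2 ^ (1:ℝ) := Real.rpow_le_rpow_of_exponent_le (by norm_num) (by linarith)
        _ = 2 := Real.rpow_one _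
    have e2 : X ^ (20 * κ) ≤ X ^ ε := Real.rpow_le_rpow_of_exponent_le hX1 (by linarith)
    gcongr
  have s6 : Z ^ (1/2:ℝ) ≤ 2 * X ^ (1/2:ℝ) := by
    rw [hZ, Real.mul_rpow (by norm_num) hX0.le]
    gcongr
    calc (2:ℝ) ^ (1/2:ℝ) ≤ 2 ^ (1:ℝ) := Real.rpow_le_rpow_of_exponent_le (by norm_num) (by norm_num)
      _ = 2 := Real.rpow_one _
  have hlog0 : 0 ≤ 1 + Real.log (2 * (2:ℝ)^J * V^2 + 1) := by
    have h1 : 1 ≤ 2 * (2:ℝ)^J * V^2 + 1 := by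
      have : 0 ≤ 2 * (2:ℝ)^J * V^2 := by positivity
      linarith
    have := Real.log_nonneg h1
    linarith
  have hZadd : Z ^ (9 * κ) * Z ^ κ * Z ^ (9 * κ) * Z ^ κ = Z ^ (20 * κ) := by
    rw [← Real.rpow_add hZ0, ← Real.rpow_add hZ0, ← Real.rpow_add hZ0]
    congr 1; ring
  have hone : Cb * ((J:ℝ)^9 * (1 + Real.log (2 * (2:ℝ)^J * V^2 + 1)) * ((2:ℝ)^J) ^ (9 * κ)) * (H / V^6 + 1 / (δ * V^2)) ≤
      4 * Cb * CA * (X ^ ε * (H / V^6 + X ^ (1/2:ℝ) / V^3)) := by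
    calc _ ≤ Cb * (((2/κ + 1)^9 * Z ^ (9 * κ)) * ((3 + 2/κ) * Z ^ κ) * (2 * Z ^ (9 * κ))) *
          (Z ^ κ * (H / V^6 + Z ^ (1/2:ℝ) / V^3)) := by gcongr
      _ = Cb * CA * (Z ^ (9 * κ) * Z ^ κ * Z ^ (9 * κ) * Z ^ κ) * (H / V^6 + Z ^ (1/2:ℝ) / V^3) := by
          rw [hCA]; ring
      _ = Cb * CA * Z ^ (20 * κ) * (H / V^6 + Z ^ (1/2:ℝ) / V^3) := by rw [hZadd]
      _ ≤ Cb * CA * (2 * X ^ ε) * (2 * (H / V^6) + (2 * X ^ (1/2:ℝ)) / V^3) := by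
          gcongr
          linarith
      _ = _ := by ring
  calc (T.card : ℝ) ≤ 4 * Cb * CA * (X ^ ε * (H / V^6 + X ^ (1/2:ℝ) / V^3)) +
        4 * Cb * CA * (X ^ ε * (H / V^6 + X ^ (1/2:ℝ) / V^3)) := by linarith
    _ = 8 * Cb * CA * X ^ ε * (H / V^6 + X ^ (1/2:ℝ) / V^3) := by ring
    _ ≤ _ := by
        gcongr
        have : 0 ≤ V0^8 := by positivity
        linarith

end Pool.Agent.Y938.Sep
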