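import Mathlib
import Pool.Agent.Y938.Sep.D
import Pool.Agent.H425R3.MM.K10
import Pool.Agent.H425R3.MM.K11

/-!
# Large values of the error term at well-spaced real points: all ranges
-/

open Finset Filter Topology
open Pool.Agent.H452R2
open Pool.Agent.H383
open Pool.Agent.H383.Gauss Pool.Agent.H383.AP

namespace Pool.Agent.Y938.Sep

variable {E : ℝ → ℝ} {a : ℕ → ℝ} {φ : ℝ} {w : ℝ → ℂ}

theorem lv_sep_all (ha : Win.Bdw a) (ha0 : a 0 = 0) (hw : GW.Wt w) {κ₁ κ₂ : ℝ} (hS : Win.SandW E a φ w κ₁ κ₂)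
    (hloc : ∀ B : ℝ, ∃ K : ℝ, ∀ t : ℝ, 1 ≤ t → t ≤ B → |E t| ≤ K) {ε : ℝ} (hε : 0 < ε) :
    ∃ C : ℝ, ∀ X H V : ℝ, 1 ≤ X → 0 ≤ H → H ≤ X → 0 < V → ∀ T : Finset ℝ,
      (∀ t ∈ T, X ≤ t ∧ t ≤ X + H) → (∀ t ∈ T, V ≤ |E t|) →
      (∀ t ∈ T, ∀ t' ∈ T, t ≠ t' → 1 / V^2 ≤ |t - t'|) →
      (T.card : ℝ) ≤ C * X ^ ε * (H / V^6 + √X / V^3) := by
  obtain ⟨C1, hC1, X0, h1⟩ := lv_sep ha ha0 hw hS hε
  obtain ⟨K, hK⟩ := hloc (2 * X0)
  set K' : ℝ := max K 1 with hK'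
  have hK1 : 1 ≤ K' := le_max_right _ _
  refine ⟨C1 + K'^8 + 1, ?_⟩
  intro X H V hX hH hHX hV T hT hVT hsep
  have hXε : 1 ≤ X ^ ε := Real.one_le_rpow hX hε.le
  have hsX : 1 ≤ √X := by rw [Real.one_le_sqrt]; exact hX
  have hX0 : 0 < X := by linarith
  have hT1 : 0 ≤ H / V^6 := by positivity
  have hT2 : 0 ≤ √X / V^3 := by positivity
  have hcard := card_sep (η := 1/V^2) (by positivity) hH T hsep hT
  have e1 : H / (1/V^2) = V^8 * (H / V^6) := by field_simp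
  rw [e1] at hcard
  rcases lt_or_ge V 1 with hV1 | hV1
  · -- small V
    have h2 : V^8 * (H / V^6) ≤ 1 * (H / V^6) := by
      gcongr
      exact pow_le_one₀ hV.le hV1.le
    have h3 : 1 ≤ √X / V^3 := by
      rw [le_div_iff₀ (by positivity), one_mul]
      exact (pow_le_one₀ hV.le hV1.le).trans hsX
    calc (T.card : ℝ) ≤ 1 * 1 * (H / V^6 + √X / V^3) := by linarith
      _ ≤ (C1 + K'^8 + 1) * X ^ ε * (H / V^6 + √X / V^3) := by
          gcongr
          have : 0 ≤ K'^8 := by positivity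
          linarith
  rcases le_or_gt (X0:ℝ) X with hXX | hXX
  · have h2 := h1 X hXX H hH hHX V hV1 T hsep hT hVT
    rw [← Real.sqrt_eq_rpow] at h2
    refine h2.trans ?_
    gcongr
    have : 0 ≤ K'^8 := by positivity
    linarith
  · rcases T.eq_empty_or_nonempty with rfl | ⟨t, ht⟩
    · rw [card_empty, Nat.cast_zero]; positivity
    have hVK : V ≤ K' := by
      have h2 := hVT t ht
      have h3 := hK t (by linarith [(hT t ht).1]) (by linarith [(hT t ht).2])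
      exact h2.trans (h3.trans (le_max_left _ _))
    have h2 : V^8 * (H / V^6) ≤ K'^8 * (H / V^6) := by gcongr
    have h3 : 1 ≤ K'^8 * (√X / V^3) := by
      rw [mul_div_assoc', le_div_iff₀ (by positivity), one_mul]
      calc V^3 ≤ K'^3 := by gcongr
        _ ≤ K'^8 * 1 := by
            rw [mul_one]
            exact pow_le_pow_right₀ hK1 (by norm_num)
        _ ≤ _ := by gcongr
    calc (T.card : ℝ) ≤ K'^8 * 1 * (H / V^6 + √X / V^3) := by linarith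
      _ ≤ (C1 + K'^8 + 1) * X ^ ε * (H / V^6 + √X / V^3) := by
          gcongr
          linarith

/-- the local bound for the circle problem -/
lemma En_loc (B : ℝ) : ∃ K : ℝ, ∀ t : ℝ, 1 ≤ t → t ≤ B → |En t| ≤ K := by
  refine ⟨F B + Real.pi * B^2, ?_⟩
  intro t ht htB
  have hpi := Real.pi_pos
  unfold En
  have hs : 1 ≤ √t := by rw [Real.one_le_sqrt]; exact ht
  have hF := Circ.F_mono (by linarith : 0 ≤ t) htB
  have hF0 : 0 ≤ F t := by unfold F; positivity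
  rw [abs_div, abs_of_nonneg (Real.sqrt_nonneg t), div_le_iff₀ (by linarith)]
  have h1 : |F t - Real.pi * t^2| ≤ F B + Real.pi * B^2 := by
    rw [abs_le]
    have h2 : Real.pi * t^2 ≤ Real.pi * B^2 := by gcongr
    have h3 : 0 ≤ Real.pi * t^2 := by positivity
    constructor <;> linarith
  have h0 : 0 ≤ F B + Real.pi * B^2 := by
    have := hF0.trans hF
    positivity
  nlinarith

theorem circ_sep {ε : ℝ} (hε : 0 < ε) :
    ∃ C : ℝ, ∀ X H V : ℝ, 1 ≤ X → 0 ≤ H → H ≤ X → 0 < V → ∀ T : Finset ℝ,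
      (∀ t ∈ T, X ≤ t ∧ t ≤ X + H) → (∀ t ∈ T, V ≤ |En t|) →
      (∀ t ∈ T, ∀ t' ∈ T, t ≠ t' → 1 / V^2 ≤ |t - t'|) →
      (T.card : ℝ) ≤ C * X ^ ε * (H / V^6 + √X / V^3) :=
  lv_sep_all Pool.Agent.H452R2.Win.ag_Bdw Circ.ag_zero Circ.wg_Wt Pool.Agent.H452R2.Win.En_SandW En_loc hε

end Pool.Agent.Y938.Sep
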